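import Pool.Agent.H28.Carpet.Dim

open MeasureTheory Filter Topology Set
open scoped ENNReal NNReal

namespace Pool.Agent.Results.MP_4f9d30_an.InvariantFullDimension

open Pool.Agent.H28.Carpet

theorem coding_eq_fmap {m n : ℕ} {D : Finset (Fin m × Fin n)} (hm : 2 ≤ m) (hn : 2 ≤ n)
    (ω : ℕ → D) : coding D ω = fmap (ω 0 : Fin m × Fin n) (coding D (shift ω)) := by
  have hm' : (m : ℝ) ≠ 0 := by positivity
  have hn' : (n : ℝ) ≠ 0 := by positivity
  rw [coding_eq hm hn, coding_eq hm hn]
  have h1 := Real.ofDigits_eq_sum_add_ofDigits (colSeq ω) 1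
  have h2 := Real.ofDigits_eq_sum_add_ofDigits (rowSeq ω) 1
  have e1 : (fun i => colSeq ω (i + 1)) = colSeq (shift ω) := rfl
  have e2 : (fun i => rowSeq ω (i + 1)) = rowSeq (shift ω) := rfl
  rw [e1, Finset.sum_range_one] at h1
  rw [e2, Finset.sum_range_one] at h2
  rw [h1, h2]
  ext i
  fin_cases i
  · simp [fmap, Real.ofDigitsTerm, colSeq]
    field_simp
    ring
  · simp [fmap, Real.ofDigitsTerm, rowSeq]
    field_simp
    ring

theorem isCarpet_range {m n : ℕ} {D : Finset (Fin m × Fin n)} (hm : 2 ≤ m) (hn : 2 ≤ n)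
    (hD : D.Nonempty) : IsCarpet D (range (coding D)) := by
  have : Nonempty D := hD.to_subtype
  refine ⟨isCompact_range (continuous_coding hm hn), range_nonempty _, ?_⟩
  apply Subset.antisymm
  · rintro _ ⟨ω, rfl⟩
    rw [coding_eq_fmap hm hn]
    exact mem_iUnion₂.2 ⟨_, (ω 0).2, mem_image_of_mem _ (mem_range_self _)⟩
  · intro p hp
    obtain ⟨d, hd, _, ⟨ω, rfl⟩, rfl⟩ := mem_iUnion₂.1 hp
    refine ⟨fun k => Nat.casesOn k ⟨d, hd⟩ ω, ?_⟩
    rw [coding_eq_fmap hm hn]
    rfl

/-- **Every Bedford-McMullen carpet carries an invariant measure of full Minkowski dimension.**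
Let `2 ≤ m < n` and let `D ⊆ {0,…,m-1} × {0,…,n-1}` have at least two elements. The limit defining
the coding map `π` exists for every sequence, there is exactly one Bedford-McMullen carpet `Λ` of `D`, and there is a shift-invariant Borel probability measure
`ν` on `D^ℕ` such that `μ = π_* ν` has support `Λ` and the Minkowski dimension of `μ` equals the
Minkowski dimension of `Λ` (which is `log M / log m + log (N/M) / log n`). -/
theorem result (m n : ℕ) (hm : 2 ≤ m) (hmn : m < n) (D : Finset (Fin m × Fin n))
    (hD : 2 ≤ D.card) :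
    (∀ ω : ℕ → D, Tendsto (fun k => compMap ω k 0) atTop (𝓝 (coding D ω))) ∧
    ∃ Λ : Set Plane, (IsCarpet D Λ ∧ ∀ Λ', IsCarpet D Λ' → Λ' = Λ) ∧
      ∃ ν : Measure (ℕ → D), IsProbabilityMeasure ν ∧ MeasurePreserving shift ν ν ∧
        (ν.map (coding D)).support = Λ ∧
        ∃ s : ℝ, 0 ≤ s ∧ HasMinkowskiDim Λ s ∧
          measureMinkowskiDim (ν.map (coding D)) = ENNReal.ofReal s ∧
          s = Real.log (D.image Prod.fst).card / Real.log m
            + Real.log ((D.card : ℝ) / (D.image Prod.fst).card) / Real.log n := by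
  have hn : 2 ≤ n := by omega
  have hDn : D.Nonempty := Finset.card_pos.1 (by omega)
  have hcar := isCarpet_range hm hn hDn
  have hprob := isProb_mixP D hDn
  have hcont : Continuous (coding D) := continuous_coding hm hn
  have hprob2 : IsProbabilityMeasure ((mixP D hDn).map (coding D)) :=
    Measure.isProbabilityMeasure_map hcont.measurable.aemeasurable
  have hsupp : ((mixP D hDn).map (coding D)).support = range (coding D) := by
    apply Subset.antisymm
    · apply Measure.support_subset_of_isClosed hcar.1.isClosed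
      rw [mem_ae_iff, Measure.map_apply hcont.measurable hcar.1.isClosed.measurableSet.compl]
      have : coding D ⁻¹' (range (coding D))ᶜ = ∅ := by
        ext ω
        simp
      rw [this, measure_empty]
    · rintro _ ⟨ω, rfl⟩
      rw [Metric.nhds_basis_ball.mem_measureSupport]
      intro r hr
      obtain ⟨C, hC, hCb⟩ := ball_bound D hm hmn hDn (lt_add_one (boxDim D))
      have h1 := hCb ω (min r 1) (lt_min hr one_pos) (min_le_right _ _)
      refine lt_of_lt_of_le ?_ (h1.trans (measure_mono (Metric.ball_subset_ball (min_le_left _ _))))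
      rw [ENNReal.ofReal_pos]
      have := lt_min hr one_pos
      positivity
  have hupper : ∀ s : ℝ, ∀ C : ℝ, 0 < C → (∀ x ∈ range (coding D), ∀ r : ℝ, 0 < r → r ≤ 1 →
      ENNReal.ofReal (C * r ^ s) ≤ (mixP D hDn).map (coding D) (Metric.ball x r)) →
      ∀ r : ℝ≥0, 0 < r → (r : ℝ) ≤ 1 → Metric.coveringNumber r (range (coding D)) ≠ ⊤ ∧
      ((Metric.coveringNumber r (range (coding D))).toNat : ℝ) ≤ 1 / (C * ((r : ℝ) / 2) ^ s) := by
    intro s C hC h r hr hr1
    have hr0 : (0 : ℝ) < r := by exact_mod_cast hr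
    exact covering_le ((mixP D hDn).map (coding D)) _ (by positivity)
      fun x hx => h x hx (r / 2) (by positivity) (by linarith)
  have hbox : HasMinkowskiDim (range (coding D)) (boxDim D) := by
    unfold HasMinkowskiDim
    rw [tendsto_order]
    constructor
    · intro a ha
      obtain ⟨c, hc, hcb⟩ := cover_lower (D := D) hm hmn hDn
      obtain ⟨C, hC, hCb⟩ := ball_bound D hm hmn hDn (lt_add_one (boxDim D))
      refine lt_ratio hc ha fun r hr hr2 => hcb r hr hr2 ?_
      refine (hupper (boxDim D + 1) C hC ?_ r hr (by linarith)).1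
      rintro _ ⟨ω, rfl⟩ r hr hr1
      exact hCb ω r hr hr1
    · intro b hb
      obtain ⟨s, hs1, hs2⟩ := exists_between hb
      obtain ⟨C, hC, hCb⟩ := ball_bound D hm hmn hDn hs1
      refine ratio_lt (range_nonempty_iff_nonempty.2 ?_) hC hs2 (hupper s C hC ?_)
      · have : Nonempty D := hDn.to_subtype
        infer_instance
      · rintro _ ⟨ω, rfl⟩ r hr hr1
        exact hCb ω r hr hr1
  have hmdim : measureMinkowskiDim ((mixP D hDn).map (coding D)) = ENNReal.ofReal (boxDim D) := by
    apply le_antisymm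
    · apply le_of_forall_gt_imp_ge_of_dense
      intro a ha
      rcases eq_or_ne a ⊤ with rfl | hatop
      · exact le_top
      · lift a to ℝ≥0 using hatop
        have ha' : boxDim D < a := by
          rw [← ENNReal.ofReal_coe_nnreal, ENNReal.ofReal_lt_ofReal_iff_of_nonneg
            (boxDim_nonneg D hm hmn hDn)] at ha
          exact ha
        unfold measureMinkowskiDim
        refine iInf₂_le a ?_
        obtain ⟨C, hC, hCb⟩ := ball_bound D hm hmn hDn ha'
        refine ⟨C, hC, ?_⟩
        rw [hsupp]
        rintro _ ⟨ω, rfl⟩ r hr hr1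
        exact hCb ω r hr hr1
    · unfold measureMinkowskiDim
      refine le_iInf₂ fun s hs => ?_
      obtain ⟨C, hC, hCb⟩ := hs
      rw [hsupp] at hCb
      rw [← ENNReal.ofReal_coe_nnreal]
      apply ENNReal.ofReal_le_ofReal
      apply le_of_forall_gt_imp_ge_of_dense
      intro b hb
      have h1 := ratio_lt (A := range (coding D))
        (range_nonempty_iff_nonempty.2 (by
          have : Nonempty D := hDn.to_subtype
          infer_instance)) hC hb (hupper s C hC hCb)
      exact le_of_tendsto hbox (h1.mono fun r hr => hr.le)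
  refine ⟨fun ω => ?_, range (coding D), ⟨hcar, fun Λ' hΛ' => (range_coding hm hn hΛ').symm⟩, mixP D hDn, hprob,
    measurePreserving_mixP D hDn, hsupp, boxDim D, boxDim_nonneg D hm hmn hDn, hbox, hmdim, rfl⟩
  rw [coding_eq hm hn]
  exact tendsto_compMap hm hn ω (p := fun _ => 0) (R := 0) (fun k i => by simp)

end Pool.Agent.Results.MP_4f9d30_an.InvariantFullDimension
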